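import Pool.Agent.Helper96.GU.StF

/-!
Project GF (MP_2c90c1_al), module TEQ (helper84): two steps of an edge with the same height.
-/

set_option autoImplicit false

namespace Pool.Agent.Helper84.GF

open Pool.Agent.Helper96.UT hiding StTOP TopV TopE tht Bd VC EC
open Pool.Agent.Helper96.GU

private theorem cDvd_TEQ {α : Type} {Z : Cyc α} {i j : ℤ} (h : (Z.n : ℤ) ∣ i - j) :
    Z.c i = Z.c j := by
  obtain ⟨q, hq⟩ := h
  have : i = j + q * Z.n := by linarith
  rw [this, Z.per_mul]

theorem tTEQ : StTEQ := by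
  intro α Z η Ω _ u u' k k' hu hu' hed ht
  unfold tht at ht
  rcases ed_eq hed.symm with ⟨h1, h2⟩ | ⟨h1, h2⟩
  · have hdvd : (Z.n : ℤ) ∣ k' - k := by
      rw [h2] at ht
      by_cases h7 : (Z.c k).2 = true
      · rw [if_pos h7, if_pos h7] at ht
        exact η.inj _ _ ht
      · rw [if_neg h7, if_neg h7] at ht
        have h8 := η.inj _ _ ht
        rwa [add_sub_add_right_eq_sub] at h8
    refine ⟨hdvd, ?_⟩
    obtain ⟨q, hq⟩ := hdvd
    have e : k' = k + q * Z.n := by linarith
    rw [e, act_pre_per hu'] at h1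
    exact act_inj h1
  · exfalso
    rw [h2] at ht
    have h6 : (bar (Z.c k)).2 = !(Z.c k).2 := rfl
    rw [h6] at ht
    cases h7 : (Z.c k).2
    · rw [h7] at ht
      simp only [Bool.false_eq_true, if_false, Bool.not_false, if_true] at ht
      have h8 := cDvd_TEQ (η.inj _ _ ht)
      exact Z.red k (h8.symm.trans h2)
    · rw [h7] at ht
      simp only [if_true, Bool.not_true, Bool.false_eq_true, if_false] at ht
      have h8 := cDvd_TEQ (η.inj _ _ ht)
      apply Z.red k'
      rw [h8, h2, bar_bar]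

end Pool.Agent.Helper84.GF
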